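import Pool.Agent.P.MP_7fd347_lc.Main

open Pool.Agent.P.MP_7fd347_lc N68a2faeb in
theorem Pool.Agent.Results.MP_7fd347_lc.OneEdge.result :
    ∀ L ∈ NP, ∃ f : List Bool → List (List Bool), IsPolyTime f ∧ ∀ x,
      (∃ a b, (matGraph (f x)).Adj a b ∧ Berge ((matGraph (f x)).deleteEdges {s(a, b)})) ∧
        (L x = true ↔ ¬∃ u v, EvenPair (matGraph (f x)) u v) :=
  Pool.Agent.P.MP_7fd347_lc.main
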